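import Mathlib
import Pool.Agent.TH841.AL.Stm

set_option autoImplicit false

namespace Pool.Agent.TH927.AL.CPf

open Pool.Agent.TH841.AL

/-- the four variables -/
abbrev V (p : ℕ) [Fact p.Prime] : Type := ℤ_[p] × ℤ_[p] × ℤ_[p] × ℤ_[p]

theorem cp : Pool.Agent.TH841.AL.CP := by
  intro p hp A B b d hb hd hcov
  by_contra hall
  push Not at hall
  apply hcov
  have hp1 : (1 : ℝ) < p := by exact_mod_cast hp.out.one_lt
  let E1 : V p → ℤ_[p] := fun v => (b : ℤ_[p]) * v.1 ^ 2 - (A : ℤ_[p]) * v.2.1 ^ 2 -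
    (d : ℤ_[p]) * v.2.2.1 ^ 2
  let E2 : V p → ℤ_[p] := fun v => (b : ℤ_[p]) * v.1 ^ 2 - (B : ℤ_[p]) * v.2.1 ^ 2 -
    (b : ℤ_[p]) * (d : ℤ_[p]) * v.2.2.2 ^ 2
  have c1 : Continuous E1 := by fun_prop
  have c2 : Continuous E2 := by fun_prop
  let K : ℕ → Set (V p) := fun k => {v | 1 ≤ ‖v‖ ∧ ‖E1 v‖ ≤ (p : ℝ) ^ (-((k + 1 : ℕ) : ℤ)) ∧
    ‖E2 v‖ ≤ (p : ℝ) ^ (-((k + 1 : ℕ) : ℤ))}
  have hcl : ∀ k, IsClosed (K k) := fun k =>
    (isClosed_le continuous_const continuous_norm).inter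
      ((isClosed_le c1.norm continuous_const).inter (isClosed_le c2.norm continuous_const))
  have hmono : ∀ k, K (k + 1) ⊆ K k := by
    rintro k v ⟨h0, h1, h2⟩
    have hle : (p : ℝ) ^ (-((k + 1 + 1 : ℕ) : ℤ)) ≤ (p : ℝ) ^ (-((k + 1 : ℕ) : ℤ)) :=
      zpow_le_zpow_right₀ hp1.le (by push_cast; linarith)
    exact ⟨h0, h1.trans hle, h2.trans hle⟩
  have hne : ∀ k, (K k).Nonempty := by
    intro k
    obtain ⟨M, e, x, y, -, -, -, -, hg, h1, h2⟩ := hall (k + 1)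
    refine ⟨((M : ℤ_[p]), (e : ℤ_[p]), (x : ℤ_[p]), (y : ℤ_[p])), ?_, ?_, ?_⟩
    · by_contra hlt
      rw [not_le] at hlt
      have key : ∀ n : ℕ, ‖((n : ℕ) : ℤ_[p])‖ < 1 → p ∣ n := by
        intro n hn
        have h := (PadicInt.norm_int_lt_one_iff_dvd (p := p) (n : ℤ)).1 (by simpa using hn)
        exact_mod_cast h
      have n1 : p ∣ M := key M ((norm_fst_le _).trans_lt hlt)
      have h' := (norm_snd_le ((M : ℤ_[p]), (e : ℤ_[p]), (x : ℤ_[p]), (y : ℤ_[p]))).trans_lt hlt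
      have n2 : p ∣ e := key e ((norm_fst_le _).trans_lt h')
      have h'' := (norm_snd_le ((e : ℤ_[p]), (x : ℤ_[p]), (y : ℤ_[p]))).trans_lt h'
      have n3 : p ∣ x := key x ((norm_fst_le _).trans_lt h'')
      have n4 : p ∣ y := key y ((norm_snd_le ((x : ℤ_[p]), (y : ℤ_[p]))).trans_lt h'')
      have hd1 : p ∣ Nat.gcd (Nat.gcd M e) (Nat.gcd (Nat.gcd x y) (p ^ (k + 1))) :=
        Nat.dvd_gcd (Nat.dvd_gcd n1 n2) (Nat.dvd_gcd (Nat.dvd_gcd n3 n4) (dvd_pow_self p (by omega)))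
      rw [hg] at hd1
      exact hp.out.one_lt.ne' (Nat.dvd_one.1 hd1)
    · have h := (PadicInt.norm_int_le_pow_iff_dvd (p := p) (k := b * M ^ 2 - A * e ^ 2 - d * x ^ 2)
        (n := k + 1)).2 (by exact_mod_cast h1)
      simpa [E1] using h
    · have h := (PadicInt.norm_int_le_pow_iff_dvd (p := p) (k := b * M ^ 2 - B * e ^ 2 - b * d * y ^ 2)
        (n := k + 1)).2 (by exact_mod_cast h2)
      simpa [E2] using h
  obtain ⟨v, hv⟩ := IsCompact.nonempty_iInter_of_sequence_nonempty_isCompact_isClosed K hmono hne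
    (hcl 0).isCompact hcl
  rw [Set.mem_iInter] at hv
  have hz : ∀ z : ℤ_[p], (∀ k : ℕ, ‖z‖ ≤ (p : ℝ) ^ (-((k + 1 : ℕ) : ℤ))) → z = 0 := by
    intro z hz
    by_contra hne0
    have h := hz z.valuation
    rw [PadicInt.norm_eq_zpow_neg_valuation hne0] at h
    have h' := (zpow_le_zpow_iff_right₀ hp1).1 h
    push_cast at h'
    omega
  have e1 : E1 v = 0 := hz _ fun k => (hv k).2.1
  have e2 : E2 v = 0 := hz _ fun k => (hv k).2.2
  have f1 : (b : ℚ_[p]) * (v.1 : ℚ_[p]) ^ 2 - (A : ℚ_[p]) * (v.2.1 : ℚ_[p]) ^ 2 -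
      (d : ℚ_[p]) * (v.2.2.1 : ℚ_[p]) ^ 2 = 0 := by
    have h := congrArg ((↑) : ℤ_[p] → ℚ_[p]) e1
    simpa [E1] using h
  have f2 : (b : ℚ_[p]) * (v.1 : ℚ_[p]) ^ 2 - (B : ℚ_[p]) * (v.2.1 : ℚ_[p]) ^ 2 -
      (b : ℚ_[p]) * (d : ℚ_[p]) * (v.2.2.2 : ℚ_[p]) ^ 2 = 0 := by
    have h := congrArg ((↑) : ℤ_[p] → ℚ_[p]) e2
    simpa [E2] using h
  have hb' : (b : ℚ_[p]) ≠ 0 := by exact_mod_cast hb
  have hd' : (d : ℚ_[p]) ≠ 0 := by exact_mod_cast hd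
  refine ⟨v.1, v.2.1, v.2.2.1, v.2.2.2, ?_, by linear_combination f1, by linear_combination f2⟩
  by_contra hcon
  push Not at hcon
  obtain ⟨hM, he⟩ := hcon
  have hx : (v.2.2.1 : ℚ_[p]) = 0 := by
    rw [hM, he] at f1
    have : (d : ℚ_[p]) * (v.2.2.1 : ℚ_[p]) ^ 2 = 0 := by linear_combination -f1
    rcases mul_eq_zero.1 this with h | h
    · exact absurd h hd'
    · exact pow_eq_zero_iff (two_ne_zero) |>.1 h
  have hy : (v.2.2.2 : ℚ_[p]) = 0 := by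
    rw [hM, he] at f2
    have : ((b : ℚ_[p]) * (d : ℚ_[p])) * (v.2.2.2 : ℚ_[p]) ^ 2 = 0 := by linear_combination -f2
    rcases mul_eq_zero.1 this with h | h
    · exact absurd h (mul_ne_zero hb' hd')
    · exact pow_eq_zero_iff (two_ne_zero) |>.1 h
  have g0 : ∀ z : ℤ_[p], (z : ℚ_[p]) = 0 → z = 0 := fun z hz => Subtype.ext hz
  have hv0 : v = 0 := by
    refine Prod.ext (g0 _ hM) (Prod.ext (g0 _ he) (Prod.ext (g0 _ hx) (g0 _ hy)))
  have h1 := (hv 0).1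
  rw [hv0, norm_zero] at h1
  linarith

end Pool.Agent.TH927.AL.CPf
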